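import Pool.Agent.Lib.MP_153b2f_an.P4mConn

/-!
# Finite dynamic asymptotic dimension does not imply finite dynamical complexity

The counterexample is the transformation groupoid of the action of the wallpaper group p4m
(`P4`, all maps `(x, y) ↦ (±x + v, ±y + w)`, `(±y + v, ±x + w)` of `ℤ²`) on the compact space
`∏ₙ P4 / Λₙ`, where `Λₙ` is the stabiliser of the lattice `2ⁿ ℤ²`.
-/

namespace Pool.Agent.Results.MP_153b2f_an.FiniteDadNotFDC

open Pool.Agent.Lib.MP_153b2f_an

/-- There is a second countable étale groupoid with compact unit space whose dynamic asymptotic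
dimension is at most `2` and which does not have finite dynamical complexity (even in the
formally weaker sense `HasWeakFDC`). -/
theorem result :
    ∃ (G : Type) (_ : TopologicalSpace G) (_ : LocallyCompactSpace G) (_ : T2Space G)
      (𝒢 : EtaleGroupoid G),
      SecondCountableTopology G ∧ IsCompact 𝒢.units ∧
      𝒢.DADLE 2 ∧ ¬ 𝒢.HasFDC ∧ ¬ 𝒢.HasWeakFDC := by
  have hcount : Countable P4 := by
    have hsurj : Function.Surjective
        (fun t : Bool × ℤˣ × ℤˣ × ℤ × ℤ => mkE t.1 t.2.1 t.2.2.1 t.2.2.2.1 t.2.2.2.2) := by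
      intro g
      obtain ⟨sw, e, f, v, w, rfl⟩ := exists_mkE g
      exact ⟨(sw, e, f, v, w), rfl⟩
    exact hsurj.countable
  have hn := not_fdc Lam Lam_anti Lam_infinite (fun n => ⟨FF n, FF_finite n, fun _ h => h.1,
    one_mem_FF n, fun m hm c hc => conn_hyp n m hm c hc⟩)
  exact ⟨P4 × Om Lam, inferInstance, inferInstance, inferInstance, OmG Lam, inferInstance,
    isCompact_units _ _, dad_le Lam 2 (fun F hF _ => dad_hyp F hF), hn.1, hn.2⟩

end Pool.Agent.Results.MP_153b2f_an.FiniteDadNotFDC
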